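import Pool.Agent.Y522.Stm

/-!
# The smooth monotone union theorem (job SH-Mono of helper522)
-/

set_option autoImplicit false

open Set Filter Topology Metric Function
open scoped Manifold ContDiff

noncomputable section

namespace Pool.Agent.Y496.SH

open Pool.Agent.Y522

/-- the standard diffeomorphism onto a ball -/
theorem LD_univBall {n : ℕ} {r : ℝ} (hr : 0 < r) (x : E n) :
    LD n (OpenPartialHomeomorph.univBall (0 : E n) r) x := by
  refine ⟨{ toPartialEquiv := (OpenPartialHomeomorph.univBall (0 : E n) r).toPartialEquiv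
            open_source := (OpenPartialHomeomorph.univBall (0 : E n) r).open_source
            open_target := (OpenPartialHomeomorph.univBall (0 : E n) r).open_target
            contMDiffOn_toFun := ?_
            contMDiffOn_invFun := ?_ }, ?_, ?_⟩
  · exact (contMDiff_iff_contDiff.2 OpenPartialHomeomorph.contDiff_univBall).contMDiffOn
  · have h1 : ContDiffOn ℝ ∞ (OpenPartialHomeomorph.univBall (0 : E n) r).symm
        (OpenPartialHomeomorph.univBall (0 : E n) r).target := by
      rw [OpenPartialHomeomorph.univBall_target (0 : E n) hr]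
      exact OpenPartialHomeomorph.contDiffOn_univBall_symm
    exact contMDiffOn_iff_contDiffOn.2 h1
  · change x ∈ (OpenPartialHomeomorph.univBall (0 : E n) r).source
    rw [OpenPartialHomeomorph.univBall_source]
    exact mem_univ _
  · intro y _
    rfl

/-- an open embedding of `ℝ^n` into a ball which is the identity on a smaller ball -/
theorem exists_shrink (hE : StExt) (n : ℕ) {R : ℝ} (hR : 0 ≤ R) : ∃ σ : E n → E n, Injective σ ∧
    (∀ x, LD n σ x) ∧ (∀ x, ‖σ x‖ < R + 1) ∧ ∀ x, ‖x‖ ≤ R → σ x = x := by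
  have hR1 : 0 < R + 1 := by linarith
  set B := OpenPartialHomeomorph.univBall (0 : E n) (R + 1) with hB
  have hsrc : B.source = univ := OpenPartialHomeomorph.univBall_source _ _
  have htgt : B.target = ball 0 (R + 1) := OpenPartialHomeomorph.univBall_target _ hR1
  have hBi : Injective B := by
    intro x y h
    exact B.injOn (by rw [hsrc]; exact mem_univ _) (by rw [hsrc]; exact mem_univ _) h
  have hBL : ∀ x, LD n B x := LD_univBall hR1
  have hcomp : IsCompact (B.symm '' closedBall 0 R) := by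
    refine (isCompact_closedBall _ _).image_of_continuousOn (B.continuousOn_symm.mono ?_)
    rw [htgt]
    exact closedBall_subset_ball (by linarith)
  obtain ⟨ρ, hρ⟩ := hcomp.isBounded.subset_closedBall (0 : E n)
  obtain ⟨G, hGb, hGL, hG⟩ := hE n B hBi hBL ρ
  obtain ⟨G', hG'1, hG'2⟩ := Function.bijective_iff_has_inverse.1 hGb
  have hG'L : ∀ y, LD n G' y := LD.inverse_bij hGb hGL hG'1
  refine ⟨fun x => B (G' x), ?_, ?_, ?_, ?_⟩
  · intro x y h
    exact hG'2.injective (hBi h)
  · intro x
    exact LD.comp_fun (g := B) (f := G') (hBL _) (hG'L x)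
  · intro x
    have h1 : B (G' x) ∈ B.target := B.map_source (by rw [hsrc]; exact mem_univ _)
    rw [htgt, mem_ball_zero_iff] at h1
    exact h1
  · intro x hx
    have hxt : x ∈ B.target := by
      rw [htgt, mem_ball_zero_iff]
      linarith
    have h1 : ‖B.symm x‖ ≤ ρ := by
      have := hρ (mem_image_of_mem B.symm (mem_closedBall_zero_iff.2 hx))
      exact mem_closedBall_zero_iff.1 this
    have h2 : G (B.symm x) = x := by
      rw [hG _ h1]
      exact B.right_inv hxt
    show B (G' x) = x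
    conv_lhs => rw [← h2]
    rw [hG'1]
    exact B.right_inv hxt

/-- the step of the induction -/
theorem mono_step (hE : StExt) {n : ℕ} {X : Type} [TopologicalSpace X] [ChartedSpace (E n) X]
    (hX : Eng n X) (f : E n → X) (hf : Injective f)
    (hfL : ∀ x, LD n f x) {R : ℝ} (hR : 0 ≤ R) {K : Set X} (hK : IsCompact K) :
    ∃ (f' : E n → X) (R' : ℝ), Injective f' ∧ (∀ x, LD n f' x) ∧ (∀ x, ‖x‖ ≤ R → f' x = f x) ∧
      R + 1 ≤ R' ∧ K ⊆ f' '' ball 0 R' := by
  obtain ⟨σ, hσi, hσL, hσb, hσ⟩ := exists_shrink hE n hR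
  have hfc : Continuous f := continuous_iff_continuousAt.2 fun x => (hfL x).continuousAt
  have hC : IsCompact (K ∪ f '' closedBall 0 (R + 1)) :=
    hK.union ((isCompact_closedBall _ _).image hfc)
  obtain ⟨g, hgi, hgL, hCg⟩ := hX _ hC
  set g' : X → E n := invFun g with hg'
  have hg'g : ∀ x, g' (g x) = x := leftInverse_invFun hgi
  have hmem : ∀ x, f (σ x) ∈ range g := fun x =>
    hCg (Or.inr (mem_image_of_mem f (mem_closedBall_zero_iff.2 (hσb x).le)))
  have hgg' : ∀ x, g (g' (f (σ x))) = f (σ x) := by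
    intro x
    obtain ⟨y, hy⟩ := hmem x
    rw [← hy, hg'g]
  set h : E n → E n := fun x => g' (f (σ x)) with hh
  have hhi : Injective h := by
    intro x y hxy
    have h1 : g (h x) = g (h y) := by rw [hxy]
    simp only [hh] at h1
    rw [hgg', hgg'] at h1
    exact hσi (hf h1)
  have hhL : ∀ x, LD n h x := by
    intro x
    have h1 : LD n (fun x => f (σ x)) x := LD.comp_fun (g := f) (f := σ) (hfL _) (hσL x)
    refine LD.comp_fun (g := g') (f := fun x => f (σ x)) ?_ h1
    obtain ⟨y, hy⟩ := hmem x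
    show LD n g' (f (σ x))
    rw [← hy]
    exact LD.inverse isOpen_univ (fun x _ => hgL x) (fun x _ => hg'g x) (mem_univ y)
  obtain ⟨G, hGb, hGL, hG⟩ := hE n h hhi hhL R
  set f' : E n → X := fun x => g (G x) with hf'
  have hf'i : Injective f' := fun x y hxy => hGb.1 (hgi hxy)
  have hf'L : ∀ x, LD n f' x := fun x => LD.comp_fun (g := g) (f := G) (hgL _) (hGL x)
  -- the radius
  obtain ⟨j, hj⟩ := hK.elim_directed_cover (fun j : ℕ => f' '' ball 0 (j : ℝ))
    (fun j => isOpen_image_of_LD isOpen_ball fun x _ => hf'L x) (by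
      intro x hx
      obtain ⟨y, hy⟩ := hCg (Or.inl hx)
      obtain ⟨z, rfl⟩ := hGb.2 y
      obtain ⟨j, hj⟩ := exists_nat_gt ‖z‖
      rw [mem_iUnion]
      exact ⟨j, z, mem_ball_zero_iff.2 hj, hy⟩) (by
      intro i j
      refine ⟨max i j, ?_, ?_⟩
      · exact image_mono (ball_subset_ball (by exact_mod_cast le_max_left i j))
      · exact image_mono (ball_subset_ball (by exact_mod_cast le_max_right i j)))
  refine ⟨f', max (R + 1) j, hf'i, hf'L, ?_, le_max_left _ _, ?_⟩
  · intro x hx
    simp only [hf']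
    rw [hG x hx]
    simp only [hh]
    rw [hgg', hσ x hx]
  · exact hj.trans (image_mono (ball_subset_ball (le_max_right _ _)))

theorem monotone (hE : StExt) : StMonotone := by
  intro n X _ _ _ _ _ hX
  classical
  obtain ⟨f₀, hf₀i, hf₀L, -⟩ := hX ∅ isCompact_empty
  let S := {p : (E n → X) × ℝ // Injective p.1 ∧ (∀ x, LD n p.1 x) ∧ 0 ≤ p.2}
  have hstep : ∀ (i : ℕ) (p : S), ∃ p' : S, (∀ x, ‖x‖ ≤ p.1.2 → p'.1.1 x = p.1.1 x) ∧
      p.1.2 + 1 ≤ p'.1.2 ∧ compactCovering X i ⊆ p'.1.1 '' ball 0 p'.1.2 := by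
    rintro i ⟨⟨f, R⟩, hf, hfL, hR⟩
    obtain ⟨f', R', h1, h2, h3, h4, h5⟩ := mono_step hE hX f hf hfL hR (isCompact_compactCovering X i)
    exact ⟨⟨(f', R'), h1, h2, by simp only at hR h4 ⊢; linarith⟩, h3, h4, h5⟩
  choose stp hst1 hst2 hst3 using hstep
  let sq : ℕ → S := fun i => Nat.rec (motive := fun _ => S) ⟨(f₀, 0), hf₀i, hf₀L, le_rfl⟩
    (fun i p => stp i p) i
  have hsq : ∀ i, sq (i + 1) = stp i (sq i) := fun i => rfl
  set f : ℕ → E n → X := fun i => (sq i).1.1 with hf
  set R : ℕ → ℝ := fun i => (sq i).1.2 with hR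
  have hfi : ∀ i, Injective (f i) := fun i => (sq i).2.1
  have hfL : ∀ i x, LD n (f i) x := fun i => (sq i).2.2.1
  have hR1 : ∀ i, R i + 1 ≤ R (i + 1) := by
    intro i
    have := hst2 i (sq i)
    simp only [hR]
    rw [hsq]
    exact this
  have hf1 : ∀ i x, ‖x‖ ≤ R i → f (i + 1) x = f i x := by
    intro i x hx
    simp only [hf]
    rw [hsq]
    exact hst1 i (sq i) x hx
  have hK : ∀ i, compactCovering X i ⊆ range (f (i + 1)) := by
    intro i
    have := hst3 i (sq i)
    simp only [hf]
    rw [hsq]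
    exact this.trans (image_subset_range _ _)
  have hRmono : ∀ i j, i ≤ j → R i ≤ R j := by
    intro i j hij
    induction hij with
    | refl => exact le_rfl
    | step _ ih => exact ih.trans (by have := hR1 ‹_›; linarith)
  have hRi : ∀ i : ℕ, (i : ℝ) ≤ R i := by
    intro i
    induction i with
    | zero =>
      have : (0 : ℝ) ≤ R 0 := (sq 0).2.2.2
      simpa using this
    | succ i ih =>
      push_cast
      have := hR1 i
      linarith
  have hfij : ∀ i j, i ≤ j → ∀ x, ‖x‖ ≤ R i → f j x = f i x := by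
    intro i j hij
    induction hij with
    | refl => intro x _; rfl
    | @step j hij ih =>
      intro x hx
      rw [hf1 j x (hx.trans (hRmono i j hij)), ih x hx]
  set ix : E n → ℕ := fun x => ⌈‖x‖⌉₊ with hix
  have hixR : ∀ x, ‖x‖ ≤ R (ix x) := fun x => (Nat.le_ceil _).trans (hRi _)
  set Φ : E n → X := fun x => f (ix x) x with hΦ
  have hΦf : ∀ i x, ‖x‖ ≤ R i → Φ x = f i x := by
    intro i x hx
    simp only [hΦ]
    rcases le_total (ix x) i with h | h
    · rw [hfij _ _ h x (hixR x)]
    · rw [hfij _ _ h x hx]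
  have hinj : Injective Φ := by
    intro x y h
    have hx : ‖x‖ ≤ R (max (ix x) (ix y)) := (hixR x).trans (hRmono _ _ (le_max_left _ _))
    have hy : ‖y‖ ≤ R (max (ix x) (ix y)) := (hixR y).trans (hRmono _ _ (le_max_right _ _))
    rw [hΦf _ x hx, hΦf _ y hy] at h
    exact hfi _ h
  have hsurj : Surjective Φ := by
    intro y
    obtain ⟨i, hi⟩ := exists_mem_compactCovering y
    have h1 := hst3 i (sq i) hi
    obtain ⟨x, hx, hxy⟩ := h1
    have hx' : ‖x‖ ≤ R (i + 1) := by
      simp only [hR]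
      rw [hsq]
      exact (mem_ball_zero_iff.1 hx).le
    refine ⟨x, ?_⟩
    rw [hΦf (i + 1) x hx']
    simp only [hf]
    rw [hsq]
    exact hxy
  have hLD : IsLocalDiffeomorph (𝓡 n) (𝓡 n) ∞ Φ := by
    intro x
    have hx : ‖x‖ < R (ix x + 1) := by
      have := hixR x
      have := hR1 (ix x)
      linarith
    refine LD.congr (hfL (ix x + 1) x) ?_
    filter_upwards [isOpen_ball.mem_nhds (mem_ball_zero_iff.2 hx)] with y hy
    exact hΦf (ix x + 1) y (mem_ball_zero_iff.1 hy).le
  exact ⟨(hLD.diffeomorphOfBijective ⟨hinj, hsurj⟩).symm⟩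

end Pool.Agent.Y496.SH
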