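import Pool.Agent.Y496.SH.Rad

/-!
# Compression inside a flow box (job SH-Compress of helper522)
-/

set_option autoImplicit false

open Set Filter Topology Metric Function
open scoped Manifold ContDiff

noncomputable section

namespace Pool.Agent.Y496.SH

open Pool.Agent.Y522

theorem compress : StCompress := by
  intro m X _ _ _ _ F R η hR hη hinj hLD R' hR' τ hτ
  classical
  -- constants
  set R₁ : ℝ := max R' 0 with hR₁
  have hR₁0 : 0 ≤ R₁ := le_max_right _ _
  have hR₁R : R₁ < R := max_lt hR' hR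
  set R₂ : ℝ := (R₁ + R) / 2 with hR₂
  have h12 : R₁ < R₂ := by rw [hR₂]; linarith
  have h2R : R₂ < R := by rw [hR₂]; linarith
  have hR₂0 : 0 < R₂ := hR₁0.trans_lt h12
  set a : ℝ := R₁ ^ 2 with ha
  set b : ℝ := R₂ ^ 2 with hb
  have hab : a < b := pow_lt_pow_left₀ h12 hR₁0 two_ne_zero
  set A : ℝ := R₁ / τ with hA
  have hA0 : 0 ≤ A := by positivity
  have hAτ : Real.exp (-A) * R₁ < τ := by
    have h1 : A + 1 ≤ Real.exp A := Real.add_one_le_exp A
    rw [Real.exp_neg, inv_mul_eq_div, div_lt_iff₀ (Real.exp_pos _)]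
    have h2 : τ * (A + 1) = R₁ + τ := by rw [hA]; field_simp
    nlinarith
  set Θ : E (m + 1) → E (m + 1) := Th A a b η with hΘ
  have hΘi : Injective Θ := Th_inj hA0 hab
  have hΘs : Surjective Θ := Th_surj hab
  have hΘL : ∀ z, LD (m + 1) Θ z := Th_LD hA0 hab
  -- Θ and the box
  have hout : ∀ z, z ∉ box m R₂ (η / 2) → Θ z = z := by
    intro z hz
    by_cases h1 : ‖tl z‖ ≤ R₂
    · have h2 : ¬ |z 0| ≤ η / 2 := fun h => hz ⟨h1, h⟩
      exact Th_id_height hη (not_le.1 h2).le
    · refine Th_id_rad hab ?_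
      rw [hb]
      exact pow_le_pow_left₀ hR₂0.le (not_le.1 h1).le 2
  have hmap : ∀ z, z ∈ box m R η → Θ z ∈ box m R η := by
    intro z hz
    refine ⟨?_, hz.2⟩
    rw [hΘ, tl_Th, norm_smul, Real.norm_of_nonneg (fc_pos _ _ _ _ _).le]
    calc fc A a b η z * ‖tl z‖ ≤ 1 * ‖tl z‖ :=
          mul_le_mul_of_nonneg_right (fc_le_one hA0 z) (norm_nonneg _)
      _ ≤ R := by rw [one_mul]; exact hz.1
  have hsub : box m R₂ (η / 2) ⊆ box m R η := fun z hz =>
    ⟨hz.1.trans h2R.le, hz.2.trans (by linarith)⟩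
  have hmapinv : ∀ z, Θ z ∈ box m R η → z ∈ box m R η := by
    intro z hz
    by_cases h1 : z ∈ box m R₂ (η / 2)
    · exact hsub h1
    · rwa [hout z h1] at hz
  -- the inverse of F on the box
  have hex : ∀ x, x ∈ F '' box m R η → ∃ z, z ∈ box m R η ∧ F z = x := fun x hx => hx
  set g : X → E (m + 1) := fun x => if h : x ∈ F '' box m R η then (hex x h).choose else 0 with hg
  have hgF : ∀ z ∈ box m R η, g (F z) = z := by
    intro z hz
    have h1 : F z ∈ F '' box m R η := mem_image_of_mem F hz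
    simp only [hg]
    rw [dif_pos h1]
    have h2 := (hex (F z) h1).choose_spec
    exact hinj h2.1 hz h2.2
  set Λ : X → X := fun x => if x ∈ F '' box m R η then F (Θ (g x)) else x with hΛ
  have hΛF : ∀ z ∈ box m R η, Λ (F z) = F (Θ z) := by
    intro z hz
    simp only [hΛ]
    rw [if_pos (mem_image_of_mem F hz), hgF z hz]
  have hΛo : ∀ x, x ∉ F '' box m R η → Λ x = x := by
    intro x hx
    simp only [hΛ]
    rw [if_neg hx]
  refine ⟨Λ, ⟨?_, ?_⟩, ?_, hΛo, ?_, ?_⟩
  · -- injective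
    intro x x' h
    by_cases hx : x ∈ F '' box m R η
    · obtain ⟨z, hz, rfl⟩ := hx
      rw [hΛF z hz] at h
      by_cases hx' : x' ∈ F '' box m R η
      · obtain ⟨z', hz', rfl⟩ := hx'
        rw [hΛF z' hz'] at h
        rw [hΘi (hinj (hmap z hz) (hmap z' hz') h)]
      · rw [hΛo x' hx'] at h
        exact absurd (h ▸ mem_image_of_mem F (hmap z hz)) hx'
    · rw [hΛo x hx] at h
      by_cases hx' : x' ∈ F '' box m R η
      · obtain ⟨z', hz', rfl⟩ := hx'
        rw [hΛF z' hz'] at h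
        exact absurd (h ▸ mem_image_of_mem F (hmap z' hz')) hx
      · rw [hΛo x' hx'] at h
        exact h
  · -- surjective
    intro y
    by_cases hy : y ∈ F '' box m R η
    · obtain ⟨w, hw, rfl⟩ := hy
      obtain ⟨z, rfl⟩ := hΘs w
      exact ⟨F z, hΛF z (hmapinv z hw)⟩
    · exact ⟨y, hΛo y hy⟩
  · -- local diffeomorphism
    intro x
    set U : Set (E (m + 1)) := {z | ‖tl z‖ < R ∧ |z 0| < η} with hU
    have hUo : IsOpen U := by
      have h1 : IsOpen {z : E (m + 1) | ‖tl z‖ < R} :=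
        isOpen_lt (tl : E (m + 1) →L[ℝ] E m).continuous.norm continuous_const
      have h2 : IsOpen {z : E (m + 1) | |z 0| < η} := isOpen_lt continuous_head.abs continuous_const
      exact h1.inter h2
    have hUb : U ⊆ box m R η := fun z hz => ⟨hz.1.le, hz.2.le⟩
    by_cases hx : x ∈ F '' U
    · obtain ⟨z, hz, rfl⟩ := hx
      have h1 : LD (m + 1) g (F z) :=
        LD.inverse hUo (fun y hy => hLD y (hUb hy)) (fun y hy => hgF y (hUb hy)) hz
      have h2 : LD (m + 1) (fun x => Θ (g x)) (F z) := by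
        refine LD.comp_fun ?_ h1
        exact hΘL _
      have h3 : LD (m + 1) (fun x => F (Θ (g x))) (F z) := by
        refine LD.comp_fun (g := F) (f := fun x => Θ (g x)) ?_ h2
        show LD (m + 1) F (Θ (g (F z)))
        rw [hgF z (hUb hz)]
        exact hLD _ (hmap z (hUb hz))
      refine h3.congr ?_
      have h4 : IsOpen (F '' U) := isOpen_image_of_LD hUo fun y hy => hLD y (hUb hy)
      filter_upwards [h4.mem_nhds (mem_image_of_mem F hz)] with y hy
      simp only [hΛ]
      rw [if_pos (image_mono hUb hy)]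
    · have hcomp : IsCompact (F '' box m R₂ (η / 2)) := by
        refine (isCompact_box R₂ (η / 2)).image_of_continuousOn fun y hy => ?_
        exact (hLD y (hsub hy)).continuousAt.continuousWithinAt
      have hxn : x ∉ F '' box m R₂ (η / 2) := by
        rintro ⟨z, hz, rfl⟩
        exact hx ⟨z, ⟨hz.1.trans_lt h2R, hz.2.trans_lt (by linarith)⟩, rfl⟩
      refine (LD.id (n := m + 1) x).congr ?_
      filter_upwards [hcomp.isClosed.isOpen_compl.mem_nhds hxn] with y hy
      by_cases hyb : y ∈ F '' box m R η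
      · obtain ⟨z, hz, rfl⟩ := hyb
        rw [hΛF z hz, hout z fun h => hy (mem_image_of_mem F h)]
      · exact hΛo y hyb
  · -- levels
    intro z hz
    refine ⟨tl (Θ z), (hmap z hz).1, ?_⟩
    rw [hΛF z hz, show z 0 = (Θ z) 0 from rfl, cn_tl]
  · intro y hy
    have hR'0 : 0 ≤ R' := (norm_nonneg y).trans hy
    have hyR₁ : ‖y‖ ≤ R₁ := hy.trans (le_max_left _ _)
    have hbox : (cn 0 y : E (m + 1)) ∈ box m R η := by
      refine ⟨?_, ?_⟩
      · rw [tl_cn]; linarith
      · rw [cn_zero, abs_zero]; exact hη.le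
    refine ⟨Real.exp (-A) • y, ?_, ?_⟩
    · rw [norm_smul, Real.norm_of_nonneg (Real.exp_pos _).le]
      calc Real.exp (-A) * ‖y‖ ≤ Real.exp (-A) * R₁ := mul_le_mul_of_nonneg_left hyR₁ (Real.exp_pos _).le
        _ < τ := hAτ
    · rw [hΛF _ hbox]
      congr 1
      rw [hΘ]
      unfold Th
      rw [cn_zero, tl_cn, fc_eq, be_zero, al_one hab, mul_one, mul_one]
      rw [ha]
      exact pow_le_pow_left₀ (norm_nonneg _) hyR₁ 2

end Pool.Agent.Y496.SH
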