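import Pool.Agent.Y522.Stm4
import Pool.Agent.Y833.SH.Boundary

/-!
# Compact manifolds with boundary, exceptional sets of zero length (job SH-D4 of helper522)
-/

set_option autoImplicit false

open Set Filter Topology Metric Function MeasureTheory
open scoped Manifold ContDiff

noncomputable section

namespace Pool.Agent.Y496.SH

open Pool.Agent.Y522 Pool.Agent.Y833.SH

section general

variable {E H : Type*} [NormedAddCommGroup E] [NormedSpace ℝ E] [TopologicalSpace H]
  (I : ModelWithCorners ℝ E H) {M : Type*} [TopologicalSpace M] [ChartedSpace H M]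

/-- a chart, restricted to the interior, as a partial diffeomorphism onto an open set -/
def pdI [IsManifold I ∞ M] (e : OpenPartialHomeomorph M H) (he : e ∈ atlas H M) :
    PartialDiffeomorph I 𝓘(ℝ, E) M E ∞ where
  toFun := e.extend I
  invFun := (e.extend I).symm
  source := e.source ∩ I.interior M
  target := interior (e.extend I).target
  map_source' y hy := (mem_int_iff I he hy.1).1 hy.2
  map_target' z hz := by
    have h2 : (e.extend I).symm z ∈ e.source := by
      have := (e.extend I).map_target (interior_subset hz)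
      rwa [e.extend_source] at this
    refine ⟨h2, ?_⟩
    rw [mem_int_iff I he h2, (e.extend I).right_inv (interior_subset hz)]
    exact hz
  left_inv' y hy := (e.extend I).left_inv (by rw [e.extend_source]; exact hy.1)
  right_inv' z hz := (e.extend I).right_inv (interior_subset hz)
  open_source := e.open_source.inter (isOpen_int I)
  open_target := isOpen_interior
  contMDiffOn_toFun := fun y hy =>
    (e.contMDiffAt_extend (IsManifold.subset_maximalAtlas (I := I) (n := ∞) he)
      hy.1).contMDiffWithinAt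
  contMDiffOn_invFun := by
    refine (contMDiffOn_extend_symm (IsManifold.subset_maximalAtlas (I := I) (n := ∞) he)).mono ?_
    have : I '' e.target = (e.extend I).target := by
      rw [e.extend_target, I.image_eq]
    rw [this]
    exact interior_subset

end general

/-- a manifold without boundary: points have neighbourhoods which embed -/
theorem emb_point {n : ℕ} {X : Type*} [TopologicalSpace X] [ChartedSpace (E n) X]
    [IsManifold (𝓡 n) ∞ X] (x : X) : Emb n {x} := by
  refine ⟨(chartAt (E n) x).source, chartAt (E n) x, (chartAt (E n) x).open_source, ?_,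
    (chartAt (E n) x).injOn, ?_⟩
  · rw [singleton_subset_iff]; exact mem_chart_source (E n) x
  · intro y hy
    refine ⟨{ toPartialEquiv := (chartAt (E n) x).toPartialEquiv
              open_source := (chartAt (E n) x).open_source
              open_target := (chartAt (E n) x).open_target
              contMDiffOn_toFun := contMDiffOn_chart
              contMDiffOn_invFun := contMDiffOn_chart_symm }, hy, fun _ _ => rfl⟩

/-- the inverse of the standard diffeomorphism of the unit ball, in coordinates, maps sets of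
length zero to null sets -/
theorem thin_of_null (Y : Set (E 4)) (hY : μH[1] Y = 0) (i : Fin 4) (R : ℝ) :
    interior ((fun y : E 4 => y i) '' ((fun x : E 4 => OpenPartialHomeomorph.univUnitBall x) ⁻¹' Y ∩
      closedBall 0 R)) = ∅ := by
  set u : OpenPartialHomeomorph (E 4) (E 4) := OpenPartialHomeomorph.univUnitBall with hu
  have huc : Continuous u := OpenPartialHomeomorph.contDiff_univUnitBall (n := 0).continuous
  set S : Set (E 4) := u '' closedBall 0 R with hS
  have hScomp : IsCompact S := (isCompact_closedBall _ _).image huc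
  have hSball : S ⊆ ball 0 1 := by
    rintro _ ⟨x, -, rfl⟩
    exact u.map_source (mem_univ x)
  have hloc : LocallyLipschitzOn S (fun z : E 4 => (u.symm z) i) := by
    intro z hz
    have h1 : ContDiffAt ℝ 1 (u.symm : E 4 → E 4) z :=
      ((OpenPartialHomeomorph.contDiffOn_univUnitBall_symm (n := 1)).contDiffAt
        (isOpen_ball.mem_nhds (hSball hz)))
    have h2 : ContDiffAt ℝ 1 (fun z : E 4 => (u.symm z) i) z := by
      have h3 : ContDiff ℝ 1 (fun y : E 4 => y i) := by fun_prop
      exact h3.contDiffAt.comp z h1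
    obtain ⟨K, t, ht, hK⟩ := h2.exists_lipschitzOnWith
    exact ⟨K, t, mem_nhdsWithin_of_mem_nhds ht, hK⟩
  obtain ⟨K, hK⟩ := hloc.exists_lipschitzOnWith_of_compact hScomp
  have hnull : volume ((fun y : E 4 => y i) '' ((fun x : E 4 => u x) ⁻¹' Y ∩ closedBall 0 R)) = 0 := by
    have h1 : (fun y : E 4 => y i) '' ((fun x : E 4 => u x) ⁻¹' Y ∩ closedBall 0 R) ⊆
        (fun z : E 4 => (u.symm z) i) '' (Y ∩ S) := by
      rintro _ ⟨y, ⟨hy1, hy2⟩, rfl⟩
      refine ⟨u y, ⟨hy1, y, hy2, rfl⟩, ?_⟩
      simp only
      rw [u.left_inv (mem_univ y)]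
    refine measure_mono_null h1 ?_
    rw [← hausdorffMeasure_real]
    have h2 := (hK.mono (inter_subset_right : Y ∩ S ⊆ S)).hausdorffMeasure_image_le
      (d := 1) zero_le_one
    have h3 : μH[1] (Y ∩ S) = 0 := measure_mono_null inter_subset_left hY
    rw [h3, mul_zero] at h2
    exact nonpos_iff_eq_zero.1 h2
  exact Measure.interior_eq_empty_of_null hnull

theorem d4 (hT : StThin4) : StD4 := by
  intro M _ _ _ _ _ f Y hf hYc hY0 hint hsm hbij hfib
  let := csI (M := M) (𝓡∂ 4)
  have := mfI (M := M) (𝓡∂ 4)
  set u : OpenPartialHomeomorph (E 4) (E 4) := OpenPartialHomeomorph.univUnitBall with hu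
  have huc : Continuous u := OpenPartialHomeomorph.contDiff_univUnitBall (n := 0).continuous
  have hub : ∀ y : E 4, ‖u y‖ < 1 := fun y => by
    rw [← mem_ball_zero_iff]; exact u.map_source (mem_univ y)
  have hul : ∀ y : E 4, u.symm (u y) = y := fun y => u.left_inv (mem_univ y)
  have hur : ∀ z : E 4, ‖z‖ < 1 → u (u.symm z) = z := fun z hz =>
    u.right_inv (by
      show z ∈ ball (0 : E 4) 1
      rwa [mem_ball_zero_iff])
  have hfx : ∀ x : (𝓡∂ 4).interior M, ‖f x.1‖ < 1 := fun x => (hint x.1).1 x.2
  have : SecondCountableTopology (EuclideanHalfSpace 4) :=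
    inferInstanceAs (SecondCountableTopology {x : EuclideanSpace ℝ (Fin 4) // 0 ≤ x 0})
  have : SecondCountableTopology M :=
    ChartedSpace.secondCountable_of_sigmaCompact (EuclideanHalfSpace 4) M
  let f' : (𝓡∂ 4).interior M → E 4 := fun x => u.symm (f x.1)
  have hf' : ∀ x, u (f' x) = f x.1 := fun x => hur _ (hfx x)
  have hfc : Continuous f' := by
    rw [continuous_iff_continuousAt]
    intro x
    have h2 : ContinuousAt (fun x : (𝓡∂ 4).interior M => f x.1) x :=
      (hf.comp continuous_subtype_val).continuousAt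
    have h1 : f x.1 ∈ ball (0 : E 4) 1 := by rw [mem_ball_zero_iff]; exact hfx x
    exact ContinuousAt.comp (g := u.symm) (u.symm.continuousAt h1) h2
  have hthin : ThinMap 4 f' ((fun x : E 4 => u x) ⁻¹' Y) := by
    refine ⟨?_, ?_, ?_, ?_, ?_, ?_⟩
    · rw [isProperMap_iff_isCompact_preimage]
      refine ⟨hfc, fun K hK => ?_⟩
      have hKc : IsCompact (f ⁻¹' (u '' K)) := ((hK.image huc).isClosed.preimage hf).isCompact
      rw [Subtype.isCompact_iff]
      have e : Subtype.val '' (f' ⁻¹' K) = f ⁻¹' (u '' K) := by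
        ext m
        constructor
        · rintro ⟨x, hx, rfl⟩
          exact ⟨f' x, hx, hf' x⟩
        · rintro ⟨y, hy, hym⟩
          have hm : m ∈ (𝓡∂ 4).interior M := by
            rw [hint, ← hym]; exact hub y
          refine ⟨⟨m, hm⟩, ?_, rfl⟩
          show u.symm (f m) ∈ K
          rw [← hym, hul]
          exact hy
      rw [e]
      exact hKc
    · exact hYc.preimage huc
    · intro i R
      exact thin_of_null Y hY0 i R
    · intro x hx
      have hx' : f x.1 ∉ Y := by
        intro h
        apply hx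
        show u (f' x) ∈ Y
        rw [hf']; exact h
      have h1 : f x.1 ∈ ball (0 : E 4) 1 := by rw [mem_ball_zero_iff]; exact hfx x
      have h2 : ContMDiffAt (𝓡 4) (𝓡 4) ∞ (fun x : (𝓡∂ 4).interior M => f x.1) x :=
        (hsm x.1 (hfx x) hx').comp x (contMDiff_val (𝓡∂ 4) x)
      have h3 : ContMDiffAt (𝓡 4) (𝓡 4) ∞ (u.symm : E 4 → E 4) (f x.1) :=
        ((OpenPartialHomeomorph.contDiffOn_univUnitBall_symm (n := ⊤)).contDiffAt
          (isOpen_ball.mem_nhds h1)).contMDiffAt
      exact ContMDiffAt.comp (g := (u.symm : E 4 → E 4)) x h3 h2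
    · intro y hy
      obtain ⟨m, hm, hmu⟩ := hbij (u y) (hub y) hy
      have hmi : m ∈ (𝓡∂ 4).interior M := by
        rw [hint, hm]; exact hub y
      refine ⟨⟨m, hmi⟩, ?_, ?_⟩
      · show u.symm (f m) = y
        rw [hm, hul]
      · intro x hx
        refine Subtype.ext (hmu x.1 ?_)
        show f x.1 = u y
        rw [← hf' x, hx]
    · intro y
      by_cases hy : u y ∈ Y
      · obtain ⟨U, k, hU, hUy, hk, hld⟩ := hfib (u y) hy (hub y)
        refine ⟨Subtype.val ⁻¹' U, fun x => k x.1, hU.preimage continuous_subtype_val, ?_, ?_, ?_⟩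
        · intro x hx
          apply hUy
          show f x.1 = u y
          rw [← hf' x]
          exact congrArg u hx
        · intro a ha b hb hab
          exact Subtype.ext (hk ha hb hab)
        · intro x hx
          exact IsLocalDiffeomorphAt.comp (𝓡 4) (E 4) (ldiff_val (𝓡∂ 4) x) (hld x.1 hx)
      · obtain ⟨m, hm, hmu⟩ := hbij (u y) (hub y) hy
        have hmi : m ∈ (𝓡∂ 4).interior M := by
          rw [hint, hm]; exact hub y
        obtain ⟨U, k, hU, hUy, hk, hld⟩ := emb_point (n := 4) (⟨m, hmi⟩ : (𝓡∂ 4).interior M)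
        refine ⟨U, k, hU, ?_, hk, hld⟩
        intro x hx
        have hxm : x = ⟨m, hmi⟩ := by
          refine Subtype.ext (hmu x.1 ?_)
          show f x.1 = u y
          rw [← hf' x]
          exact congrArg u hx
        rw [hxm]
        exact hUy rfl
  obtain ⟨D⟩ := hT _ f' _ hthin
  refine ⟨fun y => (D.symm y).1, ?_, ?_, ?_⟩
  · intro a b hab
    exact D.symm.injective (Subtype.ext hab)
  · ext m
    constructor
    · rintro ⟨y, rfl⟩
      exact (D.symm y).2
    · intro hm
      exact ⟨D ⟨m, hm⟩, by simp⟩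
  · intro y
    exact IsLocalDiffeomorphAt.comp (𝓡∂ 4) M (D.symm.isLocalDiffeomorph y)
      (ldiff_val (𝓡∂ 4) (D.symm y))

theorem d4h (hT : StThin4) : StD4H := by
  intro M _ _ _ h Y hYc hY0 hsm
  have : T2Space M := h.symm.t2Space
  have : CompactSpace M := h.symm.compactSpace
  have hint : ∀ x, x ∈ (𝓡∂ 4).interior M ↔ ‖(h x : E 4)‖ < 1 := fun x =>
    int_iff (𝓡∂ 4) inferInstance h x
  have hinv : ∀ (y : E 4) (hy : ‖y‖ < 1), ∃! x, (h x : E 4) = y := by
    intro y hy
    have hy' : y ∈ closedBall (0 : E 4) 1 := by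
      rw [mem_closedBall_zero_iff]; exact hy.le
    refine ⟨h.symm ⟨y, hy'⟩, ?_, ?_⟩
    · simp only [Homeomorph.apply_symm_apply]
    · intro x hx
      rw [← h.symm_apply_apply x]
      congr 1
      exact Subtype.ext hx
  refine d4 hT M (fun x => (h x : E 4)) Y (continuous_subtype_val.comp h.continuous) hYc hY0 hint
    (fun x hx hxY => hsm x ((hint x).2 hx) hxY) (fun y hy _ => hinv y hy) ?_
  intro y hyY hy
  obtain ⟨p, hp, hpu⟩ := hinv y hy
  have hpi : p ∈ (𝓡∂ 4).interior M := by
    rw [hint, hp]; exact hy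
  refine ⟨(chartAt (EuclideanHalfSpace 4) p).source ∩ (𝓡∂ 4).interior M,
    (chartAt (EuclideanHalfSpace 4) p).extend (𝓡∂ 4),
    (chartAt (EuclideanHalfSpace 4) p).open_source.inter (isOpen_int (𝓡∂ 4)), ?_, ?_, ?_⟩
  · intro x hx
    rw [hpu x hx]
    exact ⟨mem_chart_source _ p, hpi⟩
  · intro a ha b hb hab
    exact ((chartAt (EuclideanHalfSpace 4) p).extend (𝓡∂ 4)).injOn
      (by rw [OpenPartialHomeomorph.extend_source]; exact ha.1)
      (by rw [OpenPartialHomeomorph.extend_source]; exact hb.1) hab
  · intro x hx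
    exact ⟨pdI (𝓡∂ 4) (chartAt (EuclideanHalfSpace 4) p) (chart_mem_atlas _ p), hx,
      fun _ _ => rfl⟩

end Pool.Agent.Y496.SH
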