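import Pool.Agent.Y522.Stm

/-!
# The compression map of a box (job SH-Compress of helper522)
-/

set_option autoImplicit false

open Set Filter Topology Metric Function
open scoped Manifold ContDiff

noncomputable section

namespace Pool.Agent.Y496.SH

open Pool.Agent.Y522

/-- the cutoff in the square of the radius -/
def al (a b s : ℝ) : ℝ := Real.smoothTransition ((b - s) / (b - a))

theorem al_one {a b s : ℝ} (hab : a < b) (hs : s ≤ a) : al a b s = 1 := by
  unfold al
  refine Real.smoothTransition.one_of_one_le ?_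
  rw [le_div_iff₀ (by linarith)]
  linarith

theorem al_zero {a b s : ℝ} (hab : a < b) (hs : b ≤ s) : al a b s = 0 := by
  unfold al
  refine Real.smoothTransition.zero_of_nonpos ?_
  exact div_nonpos_of_nonpos_of_nonneg (by linarith) (by linarith)

theorem al_nonneg (a b s : ℝ) : 0 ≤ al a b s := Real.smoothTransition.nonneg _

theorem al_anti {a b : ℝ} (hab : a < b) : Antitone (al a b) := by
  intro s s' h
  unfold al
  refine Real.smoothTransition.monotone ?_
  exact div_le_div_of_nonneg_right (by linarith) (by linarith)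

theorem al_smooth (a b : ℝ) : ContDiff ℝ ∞ (al a b) := by
  unfold al
  exact (Real.smoothTransition.contDiff (n := ⊤)).comp ((contDiff_const.sub contDiff_id).div_const _)

/-- the cutoff in the height -/
def be (η t : ℝ) : ℝ := Real.smoothTransition (1 - (t / (η / 2)) ^ 2)

theorem be_zero (η : ℝ) : be η 0 = 1 := by
  unfold be
  simp [Real.smoothTransition.one]

theorem be_out {η t : ℝ} (hη : 0 < η) (h : η / 2 ≤ |t|) : be η t = 0 := by
  unfold be
  refine Real.smoothTransition.zero_of_nonpos ?_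
  have h1 : 1 ≤ |t / (η / 2)| := by
    rw [abs_div, abs_of_pos (by positivity : 0 < η / 2), le_div_iff₀ (by positivity)]
    linarith
  have h2 : 1 ≤ (t / (η / 2)) ^ 2 := by
    rw [← sq_abs]
    nlinarith
  linarith

theorem be_nonneg (η t : ℝ) : 0 ≤ be η t := Real.smoothTransition.nonneg _

theorem be_smooth (η : ℝ) : ContDiff ℝ ∞ (be η) := by
  unfold be
  exact (Real.smoothTransition.contDiff (n := ⊤)).comp
    (contDiff_const.sub ((contDiff_id.div_const _).pow 2))

theorem deriv_anti {f : ℝ → ℝ} (hf : Antitone f) (x : ℝ) : deriv f x ≤ 0 := by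
  have h1 : Monotone (fun x => - f x) := fun a b hab => neg_le_neg (hf hab)
  have h2 := (h1.monotoneOn univ).derivWithin_nonneg (x := x)
  rw [derivWithin_univ] at h2
  have h3 : deriv (fun x => - f x) x = - deriv f x := deriv.fun_neg
  rw [h3] at h2
  linarith

variable {m : ℕ}

/-- the factor -/
def fc (A a b η : ℝ) (z : E (m + 1)) : ℝ := Real.exp (-(A * (be η (z 0) * al a b (‖tl z‖ ^ 2))))

/-- the compression -/
def Th (A a b η : ℝ) (z : E (m + 1)) : E (m + 1) := cn (z 0) (fc A a b η z • tl z)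

theorem fc_pos (A a b η : ℝ) (z : E (m + 1)) : 0 < fc A a b η z := Real.exp_pos _

theorem fc_le_one {A a b η : ℝ} (hA : 0 ≤ A) (z : E (m + 1)) : fc A a b η z ≤ 1 := by
  unfold fc
  rw [Real.exp_le_one_iff]
  have := be_nonneg η (z 0)
  have := al_nonneg a b (‖tl z‖ ^ 2)
  have : 0 ≤ A * (be η (z 0) * al a b (‖tl z‖ ^ 2)) := by positivity
  linarith

@[simp] theorem Th_head (A a b η : ℝ) (z : E (m + 1)) : (Th A a b η z) 0 = z 0 := rfl

@[simp] theorem tl_Th (A a b η : ℝ) (z : E (m + 1)) : tl (Th A a b η z) = fc A a b η z • tl z := by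
  unfold Th
  rw [tl_cn]

theorem Th_id_rad {A a b η : ℝ} (hab : a < b) {z : E (m + 1)} (h : b ≤ ‖tl z‖ ^ 2) :
    Th A a b η z = z := by
  unfold Th fc
  rw [al_zero hab h]
  simp

theorem Th_id_height {A a b η : ℝ} (hη : 0 < η) {z : E (m + 1)} (h : η / 2 ≤ |z 0|) :
    Th A a b η z = z := by
  unfold Th fc
  rw [be_out hη h]
  simp

/-- a radial map -/
theorem radial_inj {f : ℝ → ℝ} (hf : Antitone f) {v w : E m} {κ : ℝ} (hκ : 0 ≤ κ)
    (h : Real.exp (-(κ * f (‖v‖ ^ 2))) • v = Real.exp (-(κ * f (‖w‖ ^ 2))) • w) : v = w := by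
  have key : ∀ v w : E m, ‖v‖ < ‖w‖ →
      Real.exp (-(κ * f (‖v‖ ^ 2))) * ‖v‖ < Real.exp (-(κ * f (‖w‖ ^ 2))) * ‖w‖ := by
    intro v w hvw
    have h1 : ‖v‖ ^ 2 ≤ ‖w‖ ^ 2 := pow_le_pow_left₀ (norm_nonneg _) hvw.le 2
    have h2 : Real.exp (-(κ * f (‖v‖ ^ 2))) ≤ Real.exp (-(κ * f (‖w‖ ^ 2))) := by
      rw [Real.exp_le_exp]
      have := mul_le_mul_of_nonneg_left (hf h1) hκ
      linarith
    calc Real.exp (-(κ * f (‖v‖ ^ 2))) * ‖v‖ ≤ Real.exp (-(κ * f (‖w‖ ^ 2))) * ‖v‖ :=
          mul_le_mul_of_nonneg_right h2 (norm_nonneg _)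
      _ < _ := mul_lt_mul_of_pos_left hvw (Real.exp_pos _)
  have hn : Real.exp (-(κ * f (‖v‖ ^ 2))) * ‖v‖ = Real.exp (-(κ * f (‖w‖ ^ 2))) * ‖w‖ := by
    have h1 := congrArg norm h
    rwa [norm_smul, norm_smul, Real.norm_of_nonneg (Real.exp_pos _).le,
      Real.norm_of_nonneg (Real.exp_pos _).le] at h1
  have hvw : ‖v‖ = ‖w‖ := by
    rcases lt_trichotomy ‖v‖ ‖w‖ with h1 | h1 | h1
    · exact absurd hn (key v w h1).ne
    · exact h1
    · exact absurd hn (key w v h1).ne'
  rw [hvw] at h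
  exact smul_right_injective _ (Real.exp_pos _).ne' h

theorem radial_surj {f : ℝ → ℝ} (hf : Continuous f) {b : ℝ} (hb : ∀ s, b ≤ s → f s = 0) (κ : ℝ)
    (w : E m) : ∃ v : E m, Real.exp (-(κ * f (‖v‖ ^ 2))) • v = w := by
  by_cases hw : w = 0
  · exact ⟨0, by rw [hw, smul_zero]⟩
  have hwn : 0 < ‖w‖ := norm_pos_iff.2 hw
  set g : ℝ → ℝ := fun s => Real.exp (-(κ * f (s ^ 2))) * s with hg
  have hgc : Continuous g := by
    rw [hg]
    fun_prop
  set M : ℝ := max ‖w‖ (|b| + 1) with hM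
  have hM0 : 0 ≤ M := (norm_nonneg w).trans (le_max_left _ _)
  have hbM : b ≤ M ^ 2 := by
    have h1 : |b| + 1 ≤ M := le_max_right _ _
    have h2 := le_abs_self b
    have h3 := abs_nonneg b
    nlinarith
  have hgM : g M = M := by
    simp only [hg]
    rw [hb _ hbM]
    simp
  have hivt := intermediate_value_Icc hM0 hgc.continuousOn
  have hmem : ‖w‖ ∈ Icc (g 0) (g M) := by
    constructor
    · simp only [hg]
      simp
    · rw [hgM]
      exact le_max_left _ _
  obtain ⟨s, hs, hgs⟩ := hivt hmem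
  refine ⟨(s / ‖w‖) • w, ?_⟩
  have hns : ‖(s / ‖w‖) • w‖ = s := by
    rw [norm_smul, norm_div, norm_norm, Real.norm_of_nonneg hs.1]
    field_simp
  rw [hns, smul_smul]
  have h1 : Real.exp (-(κ * f (s ^ 2))) * (s / ‖w‖) = 1 := by
    rw [← mul_div_assoc]
    have : Real.exp (-(κ * f (s ^ 2))) * s = ‖w‖ := hgs
    rw [this, div_self hwn.ne']
  rw [h1, one_smul]

theorem fc_eq (A a b η t : ℝ) (v : E m) :
    fc A a b η (cn t v) = Real.exp (-((A * be η t) * al a b (‖v‖ ^ 2))) := by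
  unfold fc
  rw [cn_zero, tl_cn]
  congr 1
  ring

theorem Th_inj {A a b η : ℝ} (hA : 0 ≤ A) (hab : a < b) : Injective (Th A a b η (m := m)) := by
  intro z z' h
  have h0 : z 0 = z' 0 := by
    have := congrArg (fun y : E (m + 1) => y 0) h
    simpa using this
  have h1 := congrArg tl h
  rw [tl_Th, tl_Th, ← cn_tl z, ← cn_tl z', tl_cn, tl_cn, fc_eq, fc_eq, h0] at h1
  have h2 := radial_inj (al_anti hab) (mul_nonneg hA (be_nonneg η (z' 0))) h1
  rw [← cn_tl z, ← cn_tl z', h0, h2]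

theorem Th_surj {A a b η : ℝ} (hab : a < b) : Surjective (Th A a b η (m := m)) := by
  intro y
  obtain ⟨v, hv⟩ := radial_surj (al_smooth a b).continuous (fun s hs => al_zero hab hs) (A * be η (y 0))
    (tl y)
  refine ⟨cn (y 0) v, ?_⟩
  unfold Th
  rw [cn_zero, tl_cn, fc_eq, hv, cn_tl]

/-- the compression is smooth -/
theorem Th_smooth (A a b η : ℝ) : ContDiff ℝ ∞ (Th A a b η (m := m)) := by
  have h0 : ContDiff ℝ ∞ (fun z : E (m + 1) => z 0) :=
    (EuclideanSpace.proj (𝕜 := ℝ) (0 : Fin (m + 1))).contDiff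
  have h1 : ContDiff ℝ ∞ (fun z : E (m + 1) => tl z) := tl.contDiff
  have h2 : ContDiff ℝ ∞ (fc A a b η (m := m)) := by
    unfold fc
    exact Real.contDiff_exp.comp ((contDiff_const.mul (((be_smooth η).comp h0).mul
      ((al_smooth a b).comp (h1.norm_sq ℝ)))).neg)
  have h3 : Th A a b η (m := m) = fun z => (z 0) • e0 + inc (fc A a b η z • tl z) := by
    funext z
    unfold Th
    rw [cn_eq, inc_apply]
  rw [h3]
  exact (h0.smul contDiff_const).add (inc.contDiff.comp (h2.smul h1))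

theorem Th_LD {A a b η : ℝ} (hA : 0 ≤ A) (hab : a < b) (z : E (m + 1)) :
    LD (m + 1) (Th A a b η (m := m)) z := by
  have hp : HasFDerivAt (fun z : E (m + 1) => z 0) (EuclideanSpace.proj (𝕜 := ℝ) (0 : Fin (m + 1))) z :=
    (EuclideanSpace.proj (𝕜 := ℝ) (0 : Fin (m + 1))).hasFDerivAt
  have ht : HasFDerivAt (fun z : E (m + 1) => tl z) (tl : E (m + 1) →L[ℝ] E m) z := tl.hasFDerivAt
  have hn : HasFDerivAt (fun z : E (m + 1) => ‖tl z‖ ^ 2) (2 • (innerSL ℝ (tl z)).comp tl) z := ht.norm_sq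
  have hα : HasDerivAt (al a b) (deriv (al a b) (‖tl z‖ ^ 2)) (‖tl z‖ ^ 2) :=
    ((al_smooth a b).differentiable (by simp)).differentiableAt.hasDerivAt
  have hβ : HasDerivAt (be η) (deriv (be η) (z 0)) (z 0) :=
    ((be_smooth η).differentiable (by simp)).differentiableAt.hasDerivAt
  have h1 := hα.comp_hasFDerivAt z hn
  have h2 := hβ.comp_hasFDerivAt z hp
  have h3 := ((h2.mul h1).const_mul A).neg.exp
  have h4 := h3.smul ht
  have h5 := (hp.smul_const (e0 : E (m + 1))).add ((inc (m := m)).hasFDerivAt.comp z h4)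
  set L := (EuclideanSpace.proj (𝕜 := ℝ) (0 : Fin (m + 1))).smulRight (e0 : E (m + 1)) + _ with hL
  have hTh : HasFDerivAt (Th A a b η (m := m)) L z := by
    refine h5.congr_of_eventuallyEq (Eventually.of_forall fun y => ?_)
    unfold Th fc
    rw [cn_eq]
    rfl
  have hinj : Injective L := by
    rw [injective_iff_map_eq_zero]
    intro v hv
    have hv0 : v 0 = 0 := by
      have := congrArg (fun y : E (m + 1) => y 0) hv
      simp only [hL] at this
      simpa [e0] using this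
    have hvt := congrArg tl hv
    rw [map_zero] at hvt
    simp only [hL] at hvt
    simp [hv0, e0] at hvt
    set c : ℝ := Real.exp (-(A * (be η (z.ofLp 0) * al a b (‖tl z‖ ^ 2)))) with hc
    have hc0 : 0 < c := Real.exp_pos _
    set w : ℝ := inner ℝ (tl z) (tl v) with hw
    have h6 := congrArg (fun y : E m => inner ℝ y (tl v)) hvt
    simp only [inner_add_left, inner_neg_left, real_inner_smul_left, inner_zero_left,
      real_inner_self_eq_norm_sq] at h6
    rw [← hw] at h6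
    have hd := deriv_anti (al_anti hab) (‖tl z‖ ^ 2)
    have hb0 := be_nonneg η (z.ofLp 0)
    have h7 : c * (‖tl v‖ ^ 2 + A * be η (z.ofLp 0) * (-deriv (al a b) (‖tl z‖ ^ 2)) * (2 * w ^ 2)) = 0 := by
      linear_combination h6
    have h8 : 0 ≤ A * be η (z.ofLp 0) * (-deriv (al a b) (‖tl z‖ ^ 2)) * (2 * w ^ 2) := by
      have : 0 ≤ -deriv (al a b) (‖tl z‖ ^ 2) := by linarith
      positivity
    have h9 := (mul_eq_zero.1 h7).resolve_left hc0.ne'
    have h10 : ‖tl v‖ ^ 2 = 0 := by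
      have := sq_nonneg ‖tl v‖
      linarith
    have h11 : tl v = 0 := norm_eq_zero.1 (pow_eq_zero_iff two_ne_zero |>.1 h10)
    calc v = cn (v 0) (tl v) := (cn_tl v).symm
      _ = cn 0 0 := by rw [h11, hv0]
      _ = 0 := by rw [← inc_apply, map_zero]
  obtain ⟨B, hB⟩ : ∃ B : E (m + 1) ≃L[ℝ] E (m + 1), (B : E (m + 1) →L[ℝ] E (m + 1)) = L :=
    ⟨(LinearEquiv.ofInjectiveEndo L.toLinearMap hinj).toContinuousLinearEquiv, by ext v; rfl⟩
  refine LD_of_contDiffAt (Eventually.of_forall fun y => (Th_smooth A a b η).contDiffAt) B ?_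
  rw [hB]
  exact hTh

end Pool.Agent.Y496.SH
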